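import Pool.Agent.W78.GA.Basic

/-!
Project GA (GA-5): lattice points of ideals and angular sums over ideals, uniformly in the ideal.
-/

set_option autoImplicit false

namespace Pool.Agent.W322.GA

open Finset Filter
open Pool.Agent.H376R2.MR
open Pool.Agent.W78.GA

variable {t c : ℤ}

/-- the reduction data of an ideal -/
structure Rd (d : ℕ) (r : ℤ) (A : ℕ) (s : ℤ) (z₁ : Qd t c) : Prop where
  hd : 1 ≤ d
  hA : 1 ≤ A
  nm_eq : nm z₁ = d * A
  fw : ∀ w : Qd t c, lat A s w → ∃ z : Qd t c, lat d r z ∧ (A : Qd t c) * z = z₁ * w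
  bw : ∀ z : Qd t c, lat d r z → ∃ w : Qd t c, lat A s w ∧ (A : Qd t c) * z = z₁ * w

section
variable {d A : ℕ} {r s : ℤ} {z₁ : Qd t c}

lemma Rd.norm_rel (h : Rd d r A s z₁) {z w : Qd t c} (e : (A : Qd t c) * z = z₁ * w) :
    A * nm z = d * nm w := by
  have h1 := congrArg nm e
  rw [nm_mul, nm_mul, nm_natCast, h.nm_eq] at h1
  have h2 : A * (A * nm z) = A * (d * nm w) := by linarith
  exact Nat.eq_of_mul_eq_mul_left h.hA h2

lemma mul_cancel (hD : t ^ 2 < 4 * c) {a z w : Qd t c} (ha : nm a ≠ 0) (e : a * z = a * w) :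
    z = w := by
  have h1 : a * (z - w) = 0 := by rw [mul_sub, e, sub_self]
  have h2 := congrArg nm h1
  rw [nm_mul, nm_zero] at h2
  rcases mul_eq_zero.1 h2 with h3 | h3
  · exact absurd h3 ha
  · rw [nm_eq_zero hD] at h3
    exact sub_eq_zero.1 h3

lemma Rd.sum_transfer (h : Rd d r A s z₁) (hD : t ^ 2 < 4 * c) {M : Type*} [AddCommMonoid M]
    (F G : Qd t c → M) (S T : Finset (Qd t c))
    (hFG : ∀ z w : Qd t c, (A : Qd t c) * z = z₁ * w → z ∈ S → F z = G w)
    (hST : ∀ z w : Qd t c, (A : Qd t c) * z = z₁ * w → (z ∈ S ↔ w ∈ T)) :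
    ∑ z ∈ S.filter (lat d r), F z = ∑ w ∈ T.filter (lat A s), G w := by
  have hA0 : nm (A : Qd t c) ≠ 0 := by
    rw [nm_natCast]
    have := h.hA
    positivity
  have hz0 : nm z₁ ≠ 0 := by
    rw [h.nm_eq]
    have := h.hA
    have := h.hd
    positivity
  choose! f hf1 hf2 using h.bw
  refine sum_bij (fun z _ => f z) ?_ ?_ ?_ ?_
  · intro z hz
    rw [mem_filter] at hz ⊢
    exact ⟨(hST z _ (hf2 z hz.2)).1 hz.1, hf1 z hz.2⟩
  · intro z hz z' hz' e
    rw [mem_filter] at hz hz'
    apply mul_cancel hD hA0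
    rw [hf2 z hz.2, hf2 z' hz'.2, e]
  · intro w hw
    rw [mem_filter] at hw
    obtain ⟨z, hz, e⟩ := h.fw w hw.2
    refine ⟨z, mem_filter.2 ⟨(hST z w e).2 hw.1, hz⟩, ?_⟩
    apply mul_cancel hD hz0
    rw [← hf2 z hz, e]
  · intro z hz
    rw [mem_filter] at hz
    exact hFG z _ (hf2 z hz.2) hz.1

lemma Rd.one_le_iff (h : Rd d r A s z₁) {z w : Qd t c} (e : (A : Qd t c) * z = z₁ * w) :
    1 ≤ nm z ↔ 1 ≤ nm w := by
  have h1 := h.norm_rel e
  have h2 := h.hA
  have h3 := h.hd
  constructor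
  · intro h4
    by_contra h5
    have : nm w = 0 := by omega
    rw [this, mul_zero] at h1
    rcases mul_eq_zero.1 h1 with h6 | h6 <;> omega
  · intro h4
    by_contra h5
    have : nm z = 0 := by omega
    rw [this, mul_zero] at h1
    rcases mul_eq_zero.1 h1.symm with h6 | h6 <;> omega

lemma Rd.nm_real (h : Rd d r A s z₁) {z w : Qd t c} (e : (A : Qd t c) * z = z₁ * w) :
    (nm w : ℝ) = A * nm z / d := by
  have h1 : ((A * nm z : ℕ) : ℝ) = ((d * nm w : ℕ) : ℝ) := by rw [h.norm_rel e]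
  push_cast at h1
  have h3 : (0 : ℝ) < d := by exact_mod_cast h.hd
  rw [eq_div_iff h3.ne', h1]
  ring

lemma Rd.le_iff (h : Rd d r A s z₁) {z w : Qd t c} (e : (A : Qd t c) * z = z₁ * w) (X : ℝ) :
    (nm z : ℝ) ≤ X ↔ (nm w : ℝ) ≤ A * X / d := by
  have h3 : (0 : ℝ) < d := by exact_mod_cast h.hd
  have h4 : (0 : ℝ) < A := by exact_mod_cast h.hA
  rw [h.nm_real e, div_le_div_iff_of_pos_right h3, mul_le_mul_iff_right₀ h4]

lemma Rd.lt_iff (h : Rd d r A s z₁) {z w : Qd t c} (e : (A : Qd t c) * z = z₁ * w) (X : ℝ) :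
    X < (nm z : ℝ) ↔ A * X / d < (nm w : ℝ) := by
  rw [← not_le, ← not_le, h.le_iff e]

lemma Rd.mem_ball_iff (h : Rd d r A s z₁) (hD : t ^ 2 < 4 * c) {z w : Qd t c}
    (e : (A : Qd t c) * z = z₁ * w) (X : ℝ) : z ∈ ball t c X ↔ w ∈ ball t c (A * X / d) := by
  rw [mem_ball hD, mem_ball hD, h.one_le_iff e, h.le_iff e]

lemma Rd.mem_ann_iff (h : Rd d r A s z₁) (hD : t ^ 2 < 4 * c) {z w : Qd t c}
    (e : (A : Qd t c) * z = z₁ * w) (X Y : ℝ) :
    z ∈ ann t c X Y ↔ w ∈ ann t c (A * X / d) (A * Y / d) := by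
  rw [mem_ann hD, mem_ann hD, h.one_le_iff e, h.le_iff e, h.lt_iff e]

lemma Rd.card_eq (h : Rd d r A s z₁) (hD : t ^ 2 < 4 * c) (X : ℝ) :
    ((ball t c X).filter (lat d r)).card = ((ball t c (A * X / d)).filter (lat A s)).card := by
  rw [card_eq_sum_ones, card_eq_sum_ones]
  exact h.sum_transfer hD (fun _ => 1) (fun _ => 1) _ _ (fun _ _ _ _ => rfl)
    (fun z w e => h.mem_ball_iff hD e X)

lemma Rd.sum_ann (h : Rd d r A s z₁) (hD : t ^ 2 < 4 * c) (X Y : ℝ) :
    ∑ z ∈ (ann t c X Y).filter (lat d r), 1 / (nm z : ℝ) =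
      (A / d : ℝ) * ∑ w ∈ (ann t c (A * X / d) (A * Y / d)).filter (lat A s), 1 / (nm w : ℝ) := by
  rw [mul_sum]
  refine h.sum_transfer hD _ _ _ _ ?_ (fun z w e => h.mem_ann_iff hD e X Y)
  intro z w e hz
  rw [mem_ann hD] at hz
  rw [h.nm_real e]
  have h3 : (0 : ℝ) < d := by exact_mod_cast h.hd
  have h4 : (0 : ℝ) < A := by exact_mod_cast h.hA
  have h5 : (0 : ℝ) < nm z := by exact_mod_cast hz.1
  field_simp

lemma Rd.sum_ps (h : Rd d r A s z₁) (hD : t ^ 2 < 4 * c) (X : ℝ) (k : ℤ) :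
    ∑ z ∈ (ball t c X).filter (lat d r), ps k z =
      ps k z₁ * ∑ w ∈ (ball t c (A * X / d)).filter (lat A s), ps k w := by
  rw [mul_sum]
  refine h.sum_transfer hD _ _ _ _ ?_ (fun z w e => h.mem_ball_iff hD e X)
  intro z w e _
  rw [← ps_natCast_mul hD h.hA k z, e, ps_mul hD]

end

lemma exists_rd {B : ℕ} (hB : ∀ (d : ℕ) (r : ℤ), 1 ≤ d → (d : ℤ) ∣ r ^ 2 - t * r + c →
  ∃ (A : ℕ) (s : ℤ) (z₁ : Qd t c), 1 ≤ A ∧ A ≤ B ∧ 0 ≤ s ∧ s < A ∧ (A : ℤ) ∣ s ^ 2 - t * s + c ∧
    nm z₁ = d * A ∧ lat d r z₁ ∧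
    (∀ w : Qd t c, lat A s w → ∃ z : Qd t c, lat d r z ∧ (A : Qd t c) * z = z₁ * w) ∧
    (∀ z : Qd t c, lat d r z → ∃ w : Qd t c, lat A s w ∧ (A : Qd t c) * z = z₁ * w))
    (d : ℕ) (r : ℤ) (hd : 1 ≤ d) (hr : (d : ℤ) ∣ r ^ 2 - t * r + c) :
    ∃ (A : ℕ) (s : ℤ) (z₁ : Qd t c), A ≤ B ∧ 0 ≤ s ∧ s < A ∧ Rd d r A s z₁ := by
  obtain ⟨A, s, z₁, h1, h2, h3, h4, _, h6, _, h8, h9⟩ := hB d r hd hr
  exact ⟨A, s, z₁, h2, h3, h4, hd, h1, h6, h8, h9⟩

theorem lati_of (hD : t ^ 2 < 4 * c) (hL : S_LAT t c) (hR : S_RED t c) : S_LATI t c := by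
  obtain ⟨C, hC, hL1, hL2⟩ := hL
  obtain ⟨B, hB⟩ := hR
  have hkap : 0 < kap t c := by
    unfold kap
    have := Real.sqrt_pos.2 (disc_pos hD)
    positivity
  set K : ℝ := kap t c + C with hK
  have hK0 : 0 < K := by positivity
  refine ⟨C * (B + 1) + K + 2 * K * (B + 1), by positivity, ?_⟩
  intro d r hd hr
  obtain ⟨A, s, z₁, hAB, hs0, hs1, h⟩ := exists_rd hB d r hd hr
  have hdR : (1 : ℝ) ≤ d := by exact_mod_cast hd
  have hd0 : (0 : ℝ) < d := by linarith
  have hA1 : (1 : ℝ) ≤ A := by exact_mod_cast h.hA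
  have hABR : (A : ℝ) ≤ B := by exact_mod_cast hAB
  -- the first part with the constant `C (B+1)`
  have p1 : ∀ X : ℝ, (d : ℝ) ≤ X →
      |(((ball t c X).filter (lat d r)).card : ℝ) - kap t c * X / d| ≤
        C * (B + 1) * Real.sqrt (X / d) := by
    intro X hX
    have h1 : 1 ≤ A * X / d := by
      rw [le_div_iff₀ hd0]
      nlinarith
    have h2 := hL1 (A * X / d) A s h1 h.hA
    rw [h.card_eq hD]
    have e1 : kap t c * (A * X / d) / A = kap t c * X / d := by
      have : (A : ℝ) ≠ 0 := by linarith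
      field_simp
    rw [e1] at h2
    refine h2.trans ?_
    have h3 : Real.sqrt (A * X / d) ≤ (B + 1) * Real.sqrt (X / d) := by
      rw [mul_div_assoc, Real.sqrt_mul (by linarith)]
      apply mul_le_mul_of_nonneg_right _ (Real.sqrt_nonneg _)
      rw [Real.sqrt_le_left (by linarith)]
      nlinarith
    rw [mul_assoc]
    exact mul_le_mul_of_nonneg_left h3 hC.le
  have hnz : ∀ z : Qd t c, 1 ≤ nm z → lat d r z → (d : ℝ) ≤ nm z := by
    intro z h1 h2
    have h3 := nm_mod_lat hD hr h2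
    exact_mod_cast Nat.le_of_dvd h1 h3
  have hxd : ∀ x : ℝ, 1 ≤ x → Real.sqrt x ≤ x := by
    intro x hx
    rw [Real.sqrt_le_left (by linarith)]
    nlinarith
  have hB0 : (0 : ℝ) ≤ B := by positivity
  refine ⟨?_, ?_, ?_⟩
  · intro X hX
    refine (p1 X hX).trans ?_
    apply mul_le_mul_of_nonneg_right _ (Real.sqrt_nonneg _)
    have : 0 ≤ K + 2 * K * (B + 1) := by positivity
    linarith
  · intro X hX
    by_cases hXd : (d : ℝ) ≤ X
    · have h1 := p1 X hXd
      have h2 : 1 ≤ X / d := by rw [le_div_iff₀ hd0]; linarith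
      have h3 := hxd _ h2
      have h4 := (abs_le.1 h1).2
      have h5 : C * (B + 1) * Real.sqrt (X / d) ≤ C * (B + 1) * (X / d) :=
        mul_le_mul_of_nonneg_left h3 (by positivity)
      have h6 : kap t c * X / d = kap t c * (X / d) := by ring
      have h7 : 0 ≤ (C + 2 * K * (B + 1)) * (X / d) := by positivity
      have h8 : (C * (B + 1) + K + 2 * K * (B + 1)) * X / d =
        C * (B + 1) * (X / d) + kap t c * (X / d) + (C + 2 * K * (B + 1)) * (X / d) := by
        rw [hK]; ring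
      rw [h8]
      linarith
    · have h1 : (ball t c X).filter (lat d r) = ∅ := by
        rw [filter_eq_empty_iff]
        intro z hz h2
        rw [mem_ball hD] at hz
        have := hnz z hz.1 h2
        linarith
      rw [h1, card_empty]
      push_cast
      positivity
  · intro X Y hX hXY
    rw [h.sum_ann hD]
    have hX' : 0 < A * X / d := by positivity
    have hXY' : A * X / d ≤ A * Y / d := by
      apply div_le_div_of_nonneg_right _ hd0.le
      exact mul_le_mul_of_nonneg_left hXY (by linarith)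
    have hlog : Real.log ((A * Y / d) / (A * X / d)) = Real.log (Y / X) := by
      congr 1
      have : (A : ℝ) ≠ 0 := by linarith
      field_simp
    have hlog0 : 0 ≤ Real.log (Y / X) := by
      apply Real.log_nonneg
      rw [le_div_iff₀ hX]
      linarith
    set X' := A * X / d with hX'd
    set Y' := A * Y / d with hY'd
    -- bound of the inner sum
    have key : ∑ w ∈ (ann t c X' Y').filter (lat A s), 1 / (nm w : ℝ) ≤
        2 * K * (1 + Real.log (Y / X)) := by
      by_cases h1 : 1 ≤ X'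
      · have h2 := (abs_le.1 (hL2 X' Y' A s h1 hXY' h.hA)).2
        rw [hlog] at h2
        have h3 : C / Real.sqrt X' ≤ C := by
          apply div_le_self hC.le
          rw [Real.one_le_sqrt]
          exact h1
        have h4 : kap t c / A * Real.log (Y / X) ≤ kap t c * Real.log (Y / X) := by
          apply mul_le_mul_of_nonneg_right _ hlog0
          exact div_le_self hkap.le hA1
        have h5 : 2 * K * (1 + Real.log (Y / X)) =
          kap t c * Real.log (Y / X) + C + (2 * kap t c + C + (kap t c + 2 * C) * Real.log (Y / X)) := by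
          rw [hK]; ring
        have h6 : 0 ≤ 2 * kap t c + C + (kap t c + 2 * C) * Real.log (Y / X) := by positivity
        linarith
      · push Not at h1
        by_cases h2 : 1 ≤ Y'
        · -- split at norm one
          have h3 : ∑ w ∈ (ann t c X' Y').filter (lat A s), 1 / (nm w : ℝ) ≤
              ∑ w ∈ ball t c 1, 1 / (nm w : ℝ) +
              ∑ w ∈ (ann t c 1 Y').filter (lat A s), 1 / (nm w : ℝ) := by
            rw [← sum_filter_add_sum_filter_not ((ann t c X' Y').filter (lat A s))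
              (fun w => (nm w : ℝ) ≤ 1)]
            apply add_le_add
            · apply sum_le_sum_of_subset_of_nonneg
              · intro w hw
                rw [mem_filter, mem_filter, mem_ann hD] at hw
                rw [mem_ball hD]
                exact ⟨hw.1.1.1, hw.2⟩
              · intro w _ _; positivity
            · apply sum_le_sum_of_subset_of_nonneg
              · intro w hw
                rw [mem_filter, mem_filter, mem_ann hD] at hw
                rw [mem_filter, mem_ann hD]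
                exact ⟨⟨hw.1.1.1, not_le.1 hw.2, hw.1.1.2.2⟩, hw.1.2⟩
              · intro w _ _; positivity
          have h4 : ∑ w ∈ ball t c 1, 1 / (nm w : ℝ) ≤ K := by
            have h5 : ∑ w ∈ ball t c 1, 1 / (nm w : ℝ) ≤ ∑ w ∈ ball t c 1, 1 := by
              apply sum_le_sum
              intro w hw
              rw [mem_ball hD] at hw
              have : (1 : ℝ) ≤ nm w := by exact_mod_cast hw.1
              rw [div_le_one (by linarith)]
              exact this
            refine h5.trans ?_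
            have h6 := hL1 1 1 0 le_rfl le_rfl
            have h7 : (ball t c 1).filter (lat 1 0) = ball t c 1 := by
              apply filter_true_of_mem
              intro z _
              unfold lat
              simp
            rw [h7, Real.sqrt_one] at h6
            have h8 := (abs_le.1 h6).2
            simp only [sum_const, nsmul_eq_mul, mul_one]
            rw [hK]
            push_cast at h8
            linarith
          have h5 := (abs_le.1 (hL2 1 Y' A s le_rfl h2 h.hA)).2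
          rw [Real.sqrt_one, div_one, div_one] at h5
          have h6 : Real.log Y' ≤ Real.log (Y / X) := by
            rw [← hlog]
            apply Real.log_le_log (by linarith)
            rw [le_div_iff₀ hX']
            nlinarith
          have h7 : kap t c / A * Real.log Y' ≤ kap t c * Real.log (Y / X) := by
            have h8 : 0 ≤ Real.log Y' := Real.log_nonneg h2
            have h9 : kap t c / A * Real.log Y' ≤ kap t c * Real.log Y' := by
              apply mul_le_mul_of_nonneg_right _ h8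
              exact div_le_self hkap.le hA1
            exact h9.trans (mul_le_mul_of_nonneg_left h6 hkap.le)
          have h8 : 2 * K * (1 + Real.log (Y / X)) = K + (kap t c * Real.log (Y / X) + C) +
            (kap t c + (kap t c + 2 * C) * Real.log (Y / X)) := by
            rw [hK]; ring
          have h9 : 0 ≤ kap t c + (kap t c + 2 * C) * Real.log (Y / X) := by positivity
          linarith
        · push Not at h2
          have h3 : (ann t c X' Y').filter (lat A s) = ∅ := by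
            rw [filter_eq_empty_iff]
            intro w hw _
            rw [mem_ann hD] at hw
            have : (1 : ℝ) ≤ nm w := by exact_mod_cast hw.1
            linarith
          rw [h3, sum_empty]
          positivity
    have h1 : (A / d : ℝ) * ∑ w ∈ (ann t c X' Y').filter (lat A s), 1 / (nm w : ℝ) ≤
        (A / d : ℝ) * (2 * K * (1 + Real.log (Y / X))) :=
      mul_le_mul_of_nonneg_left key (by positivity)
    refine h1.trans ?_
    have h2 : (A / d : ℝ) * (2 * K * (1 + Real.log (Y / X))) =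
      (2 * K * A) / d * (1 + Real.log (Y / X)) := by ring
    rw [h2]
    apply mul_le_mul_of_nonneg_right _ (by linarith)
    apply div_le_div_of_nonneg_right _ hd0.le
    have h3 : 2 * K * A ≤ 2 * K * (B + 1) := mul_le_mul_of_nonneg_left (by linarith) (by positivity)
    have h4 : 0 ≤ C * (B + 1) + K := by positivity
    linarith

theorem angi_of (hD : t ^ 2 < 4 * c) (hA : S_ANG t c) (hR : S_RED t c) : S_ANGI t c := by
  intro M
  obtain ⟨B, hB⟩ := hR
  have hex : ∀ (d : ℕ) (r : ℤ), ∃ η : ℝ, 0 < η ∧ ∃ C : ℝ, 0 < C ∧ (1 ≤ d → ∀ (X : ℝ) (k : ℤ),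
      1 ≤ X → k ≠ 0 → |(k : ℝ)| ≤ X ^ M →
      ‖∑ z ∈ (ball t c X).filter (lat d r), ps k z‖ ≤ C * X ^ (1 - η)) := by
    intro d r
    by_cases hd : 1 ≤ d
    · obtain ⟨η, h1, C, h2, h3⟩ := hA d r M hd
      exact ⟨η, h1, C, h2, fun _ => h3⟩
    · exact ⟨1, one_pos, 1, one_pos, fun h => absurd h hd⟩
  choose η hη C hC hb using hex
  -- the finite set of pairs
  set I : Finset (ℕ × ℤ) := (range (B + 1)) ×ˢ (Icc (0 : ℤ) B) with hI
  have hIne : I.Nonempty := ⟨(0, 0), by
    rw [hI, mem_product, mem_range, mem_Icc]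
    exact ⟨by simp, le_rfl, by positivity⟩⟩
  set η₀ : ℝ := min 1 (I.inf' hIne (fun p => η p.1 p.2)) with hη₀
  set C₀ : ℝ := ∑ p ∈ I, C p.1 p.2 with hC₀
  have hη0 : 0 < η₀ := by
    rw [hη₀, lt_min_iff, Finset.lt_inf'_iff]
    exact ⟨one_pos, fun p _ => hη _ _⟩
  have hη1 : η₀ ≤ 1 := min_le_left _ _
  have hC0 : 0 < C₀ := by
    obtain ⟨p, hp⟩ := hIne
    exact sum_pos (fun p _ => hC _ _) ⟨p, hp⟩
  refine ⟨η₀, hη0, hη1, C₀ * (B + 1), by positivity, ?_⟩
  intro X k d r hd hr hdX hk hkX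
  obtain ⟨A, s, z₁, hAB, hs0, hs1, h⟩ := exists_rd hB d r hd hr
  have hd0 : (0 : ℝ) < d := by exact_mod_cast hd
  have hA1 : (1 : ℝ) ≤ A := by exact_mod_cast h.hA
  have hABR : (A : ℝ) ≤ B := by exact_mod_cast hAB
  have hmem : (A, s) ∈ I := by
    rw [hI, mem_product, mem_range, mem_Icc]
    refine ⟨by simp only []; omega, hs0, ?_⟩
    have : (A : ℤ) ≤ B := by exact_mod_cast hAB
    simp only []
    omega
  have hXd : 1 ≤ X / d := by rw [le_div_iff₀ hd0]; linarith
  have hX1 : 1 ≤ A * X / d := by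
    rw [mul_div_assoc]
    nlinarith
  have hle : X / d ≤ A * X / d := by
    rw [mul_div_assoc]
    nlinarith
  have h1 := hb A s h.hA (A * X / d) k hX1 hk
    (hkX.trans (pow_le_pow_left₀ (by linarith) hle M))
  rw [h.sum_ps hD, norm_mul]
  have h2 : ‖ps k z₁‖ ≤ 1 := norm_ps_le _ _
  have h3 : C A s ≤ C₀ := by
    rw [hC₀]
    exact single_le_sum (f := fun p : ℕ × ℤ => C p.1 p.2) (fun p _ => (hC _ _).le) hmem
  have h4 : η₀ ≤ η A s := (min_le_right _ _).trans
    (Finset.inf'_le (fun p : ℕ × ℤ => η p.1 p.2) hmem)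
  have h5 : (A * X / d) ^ (1 - η A s) ≤ (B + 1) * (X / d) ^ (1 - η₀) := by
    have e1 : (A * X / d) ^ (1 - η A s) ≤ (A * X / d) ^ (1 - η₀) :=
      Real.rpow_le_rpow_of_exponent_le hX1 (by linarith)
    refine e1.trans ?_
    rw [mul_div_assoc, Real.mul_rpow (by linarith) (by linarith)]
    apply mul_le_mul_of_nonneg_right _ (by positivity)
    have e2 : (A : ℝ) ^ (1 - η₀) ≤ (A : ℝ) ^ (1 : ℝ) :=
      Real.rpow_le_rpow_of_exponent_le hA1 (by linarith)
    rw [Real.rpow_one] at e2
    linarith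
  calc ‖ps k z₁‖ * ‖∑ w ∈ (ball t c (A * X / d)).filter (lat A s), ps k w‖
      ≤ 1 * (C A s * (A * X / d) ^ (1 - η A s)) :=
        mul_le_mul h2 h1 (norm_nonneg _) zero_le_one
    _ = C A s * (A * X / d) ^ (1 - η A s) := one_mul _
    _ ≤ C₀ * ((B + 1) * (X / d) ^ (1 - η₀)) :=
        mul_le_mul h3 h5 (by positivity) hC0.le
    _ = C₀ * (B + 1) * (X / d) ^ (1 - η₀) := by ring

end Pool.Agent.W322.GA
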