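import Pool.Agent.W78.GA.Basic

/-!
Project GA (GA-5): reduction theory for the ideals `{z : d ∣ x + r y}` of the order `ℤ[ω]`.
-/

set_option autoImplicit false

namespace Pool.Agent.W322.GA

open Finset Filter
open Pool.Agent.H376R2.MR
open Pool.Agent.W78.GA

variable {t c : ℤ}

/-- elements of the ideal in coordinates -/
def el (t c : ℤ) (d : ℕ) (r m y : ℤ) : Qd t c := ⟨d * m - r * y, y⟩

lemma el_lat (d : ℕ) (r m y : ℤ) : lat d r (el t c d r m y) := by
  unfold lat el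
  exact ⟨m, by ring⟩

lemma eq_el {d : ℕ} {r : ℤ} {z : Qd t c} (hz : lat d r z) : ∃ m : ℤ, z = el t c d r m z.im := by
  obtain ⟨m, hm⟩ := hz
  refine ⟨m, ?_⟩
  apply QuadraticAlgebra.ext
  · show z.re = d * m - r * z.im
    linarith
  · rfl

lemma natCast_mul_re (n : ℕ) (z : Qd t c) : ((n : Qd t c) * z).re = n * z.re := by
  simp [QuadraticAlgebra.re_mul]

lemma natCast_mul_im (n : ℕ) (z : Qd t c) : ((n : Qd t c) * z).im = n * z.im := by
  simp [QuadraticAlgebra.im_mul]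

lemma intCast_mul_re (n : ℤ) (z : Qd t c) : ((n : Qd t c) * z).re = n * z.re := by
  simp [QuadraticAlgebra.re_mul]

lemma intCast_mul_im (n : ℤ) (z : Qd t c) : ((n : Qd t c) * z).im = n * z.im := by
  simp [QuadraticAlgebra.im_mul]

lemma el_comb (d : ℕ) (r a b m₁ y₁ m₂ y₂ : ℤ) :
    el t c d r (a * m₁ + b * m₂) (a * y₁ + b * y₂) =
      (a : Qd t c) * el t c d r m₁ y₁ + (b : Qd t c) * el t c d r m₂ y₂ := by
  apply QuadraticAlgebra.ext
  · rw [QuadraticAlgebra.re_add, intCast_mul_re, intCast_mul_re]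
    show (d : ℤ) * (a * m₁ + b * m₂) - r * (a * y₁ + b * y₂) =
      a * (d * m₁ - r * y₁) + b * (d * m₂ - r * y₂)
    ring
  · rw [QuadraticAlgebra.im_add, intCast_mul_im, intCast_mul_im]
    rfl

lemma comb_re (A : ℕ) (a b s₀ : ℤ) :
    ((a : Qd t c) * ((A : ℕ) : Qd t c) + (b : Qd t c) * ⟨-s₀, 1⟩).re = a * A - b * s₀ := by
  rw [QuadraticAlgebra.re_add, intCast_mul_re, intCast_mul_re]
  simp
  ring

lemma comb_im (A : ℕ) (a b s₀ : ℤ) :
    ((a : Qd t c) * ((A : ℕ) : Qd t c) + (b : Qd t c) * ⟨-s₀, 1⟩).im = b := by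
  rw [QuadraticAlgebra.im_add, intCast_mul_im, intCast_mul_im]
  simp

/-- the quadratic form `nm z / d` -/
def QQ (t : ℤ) (d : ℕ) (r e m y : ℤ) : ℤ := d * m ^ 2 + (t - 2 * r) * m * y + e * y ^ 2

lemma nm_el (hD : t ^ 2 < 4 * c) {d : ℕ} {r e : ℤ} (he : r ^ 2 - t * r + c = d * e) (m y : ℤ) :
    (nm (el t c d r m y) : ℤ) = d * QQ t d r e m y := by
  rw [nm_cast hD]
  unfold el QQ
  linear_combination y ^ 2 * he

theorem red (hD : t ^ 2 < 4 * c) : S_RED t c := by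
  refine ⟨(4 * c - t ^ 2).natAbs, ?_⟩
  intro d r hd hr
  obtain ⟨e, he⟩ := hr
  have hdz : (0 : ℤ) < d := by exact_mod_cast hd
  -- minimal nonzero norm
  have hex : ∃ n : ℕ, ∃ z : Qd t c, z ≠ 0 ∧ lat d r z ∧ nm z = n :=
    ⟨nm (d : Qd t c), (d : Qd t c), by
      intro h
      have := congrArg nm h
      rw [nm_natCast, nm_zero] at this
      have : 0 < d ^ 2 := by positivity
      omega, by unfold lat; simp, rfl⟩
  classical
  obtain ⟨z₁, hz0, hz1, hzn⟩ := Nat.find_spec hex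
  have hmin : ∀ z : Qd t c, z ≠ 0 → lat d r z → nm z₁ ≤ nm z := by
    intro z h1 h2
    rw [hzn]
    exact Nat.find_min' hex ⟨z, h1, h2, rfl⟩
  obtain ⟨m₁, hm₁⟩ := eq_el hz1
  set y₁ := z₁.im with hy₁
  -- primitivity
  have hcop : Int.gcd m₁ y₁ = 1 := by
    by_contra hne
    have hg0 : Int.gcd m₁ y₁ ≠ 0 := by
      intro h
      rw [Int.gcd_eq_zero_iff] at h
      apply hz0
      rw [hm₁, h.1, h.2]
      apply QuadraticAlgebra.ext <;> simp [el]
    set g := Int.gcd m₁ y₁ with hg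
    obtain ⟨a, ha⟩ : (g : ℤ) ∣ m₁ := Int.gcd_dvd_left _ _
    obtain ⟨b, hb⟩ : (g : ℤ) ∣ y₁ := Int.gcd_dvd_right _ _
    have e1 : z₁ = (g : Qd t c) * el t c d r a b := by
      rw [hm₁]
      apply QuadraticAlgebra.ext
      · rw [natCast_mul_re]
        show (d : ℤ) * m₁ - r * y₁ = g * (d * a - r * b)
        rw [ha, hb]; ring
      · rw [natCast_mul_im]
        show y₁ = g * b
        exact hb
    have e2 : el t c d r a b ≠ 0 := by
      intro h
      rw [h, mul_zero] at e1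
      exact hz0 e1
    have e3 := hmin _ e2 (el_lat d r a b)
    rw [e1, nm_mul, nm_natCast] at e3
    have e4 : 0 < nm (el t c d r a b) := nm_pos hD e2
    have e5 : 2 ≤ g := by omega
    have e6 : 4 ≤ g ^ 2 := by nlinarith
    have e7 : 4 * nm (el t c d r a b) ≤ g ^ 2 * nm (el t c d r a b) := Nat.mul_le_mul_right _ e6
    omega
  -- Bezout
  obtain ⟨m₂, y₂, hdet⟩ : ∃ m₂ y₂ : ℤ, m₁ * y₂ - m₂ * y₁ = 1 := by
    have h := Int.gcd_eq_gcd_ab m₁ y₁
    rw [hcop] at h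
    exact ⟨-Int.gcdB m₁ y₁, Int.gcdA m₁ y₁, by push_cast at h; linarith⟩
  -- the integer A
  set A : ℤ := QQ t d r e m₁ y₁ with hA
  have hnA : (nm z₁ : ℤ) = d * A := by
    rw [hm₁, nm_el hD he]
  have hApos : 0 < A := by
    have h1 : (0 : ℤ) < nm z₁ := by exact_mod_cast nm_pos hD hz0
    rw [hnA] at h1
    exact pos_of_mul_pos_right h1 hdz.le
  set s₀ : ℤ := -(d * m₁ * m₂ - r * m₁ * y₂ + (t - r) * m₂ * y₁ + e * y₁ * y₂) with hs₀
  -- the key identity
  have key : ∀ k : ℤ, (s₀ + k * A) ^ 2 - t * (s₀ + k * A) + c =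
      A * QQ t d r e (m₂ - k * m₁) (y₂ - k * y₁) := by
    intro k
    have h0 : s₀ ^ 2 - t * s₀ + c = A * QQ t d r e m₂ y₂ := by
      rw [hs₀, hA]
      unfold QQ
      linear_combination (m₁ * y₂ - m₂ * y₁) ^ 2 * he -
        (t * (d * m₁ * m₂ - r * m₁ * y₂ + (t - r) * m₂ * y₁ + e * y₁ * y₂) +
          c * (1 + (m₁ * y₂ - m₂ * y₁))) * hdet
    have h1 : A * QQ t d r e (m₂ - k * m₁) (y₂ - k * y₁) - A * QQ t d r e m₂ y₂ =
        A * (k ^ 2 * A - k * (2 * d * m₁ * m₂ + (t - 2 * r) * (m₁ * y₂ + m₂ * y₁) + 2 * e * y₁ * y₂)) := by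
      rw [hA]
      unfold QQ
      ring
    have h2 : 2 * d * m₁ * m₂ + (t - 2 * r) * (m₁ * y₂ + m₂ * y₁) + 2 * e * y₁ * y₂ =
        t - 2 * s₀ := by
      rw [hs₀]
      linear_combination t * hdet
    rw [h2] at h1
    linear_combination h0 - h1
  have hA2 : (A.natAbs : ℤ) = A := Int.natAbs_of_nonneg hApos.le
  -- the bound for A
  have hbound : 3 * A ^ 2 ≤ 4 * c - t ^ 2 := by
    set q : ℤ := (2 * s₀ - t + A) / (2 * A) with hq
    have h1 : (2 * A) * q + (2 * s₀ - t + A) % (2 * A) = 2 * s₀ - t + A := Int.mul_ediv_add_emod _ _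
    have h2 : 0 ≤ (2 * s₀ - t + A) % (2 * A) := Int.emod_nonneg _ (by linarith)
    have h3 : (2 * s₀ - t + A) % (2 * A) < 2 * A := Int.emod_lt_of_pos _ (by linarith)
    have hk := key (-q)
    set s' : ℤ := s₀ + -q * A with hs'
    have h4 : 2 * s' - t = (2 * s₀ - t + A) % (2 * A) - A := by
      rw [hs']; linarith
    have h5 : (2 * s' - t) ^ 2 ≤ A ^ 2 := by
      rw [h4]
      apply sq_le_sq'
      · linarith
      · linarith
    -- the second vector is nonzero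
    have h6 : el t c d r (m₂ - -q * m₁) (y₂ - -q * y₁) ≠ 0 := by
      intro h
      have hy : y₂ - -q * y₁ = 0 := congrArg QuadraticAlgebra.im h
      have hm : (d : ℤ) * (m₂ - -q * m₁) - r * (y₂ - -q * y₁) = 0 := congrArg QuadraticAlgebra.re h
      rw [hy, mul_zero, sub_zero] at hm
      have hm2 : m₂ - -q * m₁ = 0 := by
        rcases mul_eq_zero.1 hm with h | h
        · omega
        · exact h
      have : m₁ * (y₂ - -q * y₁) - (m₂ - -q * m₁) * y₁ = 1 := by linarith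
      rw [hy, hm2] at this
      simp at this
    have h7 : (nm z₁ : ℤ) ≤ nm (el t c d r (m₂ - -q * m₁) (y₂ - -q * y₁)) := by
      exact_mod_cast hmin _ h6 (el_lat d r _ _)
    rw [hnA, nm_el hD he] at h7
    have h8 : A ≤ QQ t d r e (m₂ - -q * m₁) (y₂ - -q * y₁) := le_of_mul_le_mul_left h7 hdz
    have h9 : A * A ≤ A * QQ t d r e (m₂ - -q * m₁) (y₂ - -q * y₁) :=
      mul_le_mul_of_nonneg_left h8 hApos.le
    rw [← hk] at h9
    nlinarith
  have hB : A.natAbs ≤ (4 * c - t ^ 2).natAbs := by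
    have h1 : A ≤ 4 * c - t ^ 2 := by nlinarith
    omega
  -- the residue
  have hs1 : 0 ≤ s₀ % A := Int.emod_nonneg _ hApos.ne'
  have hs2 : s₀ % A < A := Int.emod_lt_of_pos _ hApos
  have hs3 : s₀ % A = s₀ + (-(s₀ / A)) * A := by
    have := Int.mul_ediv_add_emod s₀ A
    linarith
  have hlat : ∀ w : Qd t c, lat A.natAbs (s₀ % A) w ↔ A ∣ w.re + s₀ * w.im := by
    intro w
    unfold lat
    rw [hA2, hs3]
    have : w.re + (s₀ + -(s₀ / A) * A) * w.im = (w.re + s₀ * w.im) + A * (-(s₀ / A) * w.im) := by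
      ring
    rw [this, Int.dvd_add_left (Dvd.intro _ rfl)]
  -- multiplication formulas
  have hw₂ : ((A.natAbs : ℕ) : Qd t c) * el t c d r m₂ y₂ = z₁ * ⟨-s₀, 1⟩ := by
    apply QuadraticAlgebra.ext
    · rw [natCast_mul_re, hA2]
      rw [QuadraticAlgebra.re_mul, hm₁]
      show A * (d * m₂ - r * y₂) = (d * m₁ - r * y₁) * (-s₀) + -c * y₁ * 1
      rw [hs₀, hA]
      unfold QQ
      linear_combination (m₁ * y₂ - m₂ * y₁) * y₁ * he - c * y₁ * hdet
    · rw [natCast_mul_im, hA2]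
      rw [QuadraticAlgebra.im_mul, hm₁]
      show A * y₂ = (d * m₁ - r * y₁) * 1 + y₁ * (-s₀) + t * y₁ * 1
      rw [hs₀, hA]
      unfold QQ
      linear_combination ((d * m₁ - r * y₁) + t * y₁) * hdet
  refine ⟨A.natAbs, s₀ % A, z₁, by omega, hB, hs1, by rw [hA2]; exact hs2, ?_, ?_, hz1, ?_, ?_⟩
  · rw [hA2, hs3, key]
    exact Dvd.intro _ rfl
  · have : (nm z₁ : ℤ) = ((d * A.natAbs : ℕ) : ℤ) := by
      rw [hnA]; push_cast; rw [abs_of_pos hApos]
    exact_mod_cast this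
  · intro w hw
    rw [hlat] at hw
    obtain ⟨a, ha⟩ := hw
    refine ⟨el t c d r (a * m₁ + w.im * m₂) (a * y₁ + w.im * y₂), el_lat _ _ _ _, ?_⟩
    have h1 : el t c d r (a * m₁ + w.im * m₂) (a * y₁ + w.im * y₂) =
        (a : Qd t c) * z₁ + (w.im : Qd t c) * el t c d r m₂ y₂ := by
      rw [el_comb, ← hm₁]
    have h2 : w = (a : Qd t c) * ((A.natAbs : ℕ) : Qd t c) + (w.im : Qd t c) * ⟨-s₀, 1⟩ := by
      apply QuadraticAlgebra.ext
      · rw [comb_re, hA2]; linarith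
      · rw [comb_im]
    rw [h1]
    conv_rhs => rw [h2]
    linear_combination (w.im : Qd t c) * hw₂
  · intro z hz
    obtain ⟨m, hm⟩ := eq_el hz
    -- z = a z₁ + b z₂
    refine ⟨((m * y₂ - z.im * m₂ : ℤ) : Qd t c) * ((A.natAbs : ℕ) : Qd t c) +
      ((m₁ * z.im - y₁ * m : ℤ) : Qd t c) * ⟨-s₀, 1⟩, ?_, ?_⟩
    · rw [hlat, comb_re, comb_im, hA2]
      exact ⟨m * y₂ - z.im * m₂, by ring⟩
    · have h1 : z = ((m * y₂ - z.im * m₂ : ℤ) : Qd t c) * z₁ +
          ((m₁ * z.im - y₁ * m : ℤ) : Qd t c) * el t c d r m₂ y₂ := by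
        conv_rhs => rw [hm₁]
        rw [← el_comb]
        conv_lhs => rw [hm]
        congr 1
        · linear_combination -m * hdet
        · linear_combination -z.im * hdet
      conv_lhs => rw [h1]
      linear_combination ((m₁ * z.im - y₁ * m : ℤ) : Qd t c) * hw₂

end Pool.Agent.W322.GA
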